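import Pool.Agent.Kal.Main

set_option autoImplicit false

namespace Pool.Agent.Results.MP_fcb37c_co.AlphaTwo

open Kcg

/-- For `k ≥ 5` the least `m` such that every `m`-connected graph without three pairwise
non-adjacent vertices is `k`-ordered is `2 * k - 3`. -/
theorem result (k : ℕ) (hk : 5 ≤ k) :
    IsLeast {m : ℕ | ∀ (V : Type) [Fintype V] (G : SimpleGraph V),
      (∀ a b c : V, a ≠ b → a ≠ c → b ≠ c → G.Adj a b ∨ G.Adj a c ∨ G.Adj b c) →
        MConn m G → KOrdered k G} (2 * k - 3) := by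
  refine ⟨fun V _ G hα hG => Kal.upper k hk G hα hG, fun m hm => ?_⟩
  by_contra hlt
  obtain ⟨V, hV, G, h1, h2, h3⟩ := Kal.lower k hk m (not_le.1 hlt)
  exact h3 (hm V G h1 h2)

end Pool.Agent.Results.MP_fcb37c_co.AlphaTwo
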