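import Pool.Agent.Kcb.Main

set_option autoImplicit false

namespace Pool.Agent.Results.MP_fcb37c_co.CoBipartiteOdd

open Kcg

/-- For odd `k ≥ 11` the least `m` such that every `m`-connected graph with bipartite complement is
`k`-ordered is `2 * k - 4`. -/
theorem result (k : ℕ) (hk : 11 ≤ k) (hodd : Odd k) :
    IsLeast {m : ℕ | ∀ (V : Type) [Fintype V] (G : SimpleGraph V),
      Gᶜ.IsBipartite → MConn m G → KOrdered k G} (2 * k - 4) := by
  obtain ⟨j, rfl⟩ := hodd
  have e : 2 * (2 * j + 1) - 4 = (2 * j + 1) + 2 * ((2 * j + 1) / 2) - 3 := by omega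
  rw [e]
  refine ⟨fun V _ G hP hG => Kcb.upper _ (by omega) G hP hG, fun m hm => ?_⟩
  by_contra hlt
  obtain ⟨V, hV, G, h1, h2, h3⟩ := Kcb.lower (2 * j + 1) (by omega) m (not_le.1 hlt)
  exact h3 (hm V G h1 h2)

end Pool.Agent.Results.MP_fcb37c_co.CoBipartiteOdd
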