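import Pool.Agent.Kcg.Main

set_option autoImplicit false

namespace Pool.Agent.Results.MP_fcb37c_co.Cographs

open Kcg

/-- For `k ≥ 4` the least `m` such that every `m`-connected graph without an induced path on four
vertices is `k`-ordered is `2 * k - ⌈2 * √k⌉`. -/
theorem result (k : ℕ) (hk : 4 ≤ k) :
    IsLeast {m : ℕ | ∀ (V : Type) [Fintype V] (G : SimpleGraph V),
      P4Free G → MConn m G → KOrdered k G} (2 * k - ⌈2 * √(k : ℝ)⌉₊) := by
  refine ⟨fun V _ G hP hG => upper k hk G hP hG, fun m hm => ?_⟩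
  by_contra hlt
  obtain ⟨V, hV, G, h1, h2, h3⟩ := lower k hk m (not_le.1 hlt)
  exact h3 (hm V G h1 h2)

end Pool.Agent.Results.MP_fcb37c_co.Cographs
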