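import Pool.Agent.Kci.Main
import Pool.Agent.Kci.Even

set_option autoImplicit false

namespace Pool.Agent.Results.MP_fcb37c_co.StronglyChordal

open Kcg Kci

/-- For every `k ≥ 3` the least `m` such that every `m`-connected interval graph is `k`-ordered is
exactly `⌊(3 k - 3) / 2⌋`, and so it is for the strongly chordal graphs, which contain the interval
graphs. -/
theorem result (k : ℕ) (hk : 3 ≤ k) :
    (∀ (V : Type) [Fintype V] (G : SimpleGraph V), IsInterval G → StronglyChordal G) ∧
    IsLeast {m : ℕ | ∀ (V : Type) [Fintype V] (G : SimpleGraph V),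
      IsInterval G → MConn m G → KOrdered k G} ((3 * k - 3) / 2) ∧
    IsLeast {m : ℕ | ∀ (V : Type) [Fintype V] (G : SimpleGraph V),
      StronglyChordal G → MConn m G → KOrdered k G} ((3 * k - 3) / 2) := by
  have hsc : ∀ (V : Type) [Fintype V] (G : SimpleGraph V), IsInterval G → StronglyChordal G := by
    intro V _ G h
    classical
    exact interval_sc h
  refine ⟨hsc, ⟨fun V _ G hC hG => upper_all k hk V G (hsc V G hC) hG,
    fun m hm => lower_le k hk m hm⟩, ⟨fun V _ G hC hG => upper_all k hk V G hC hG,
    fun m hm => lower_le k hk m (fun V _ G hI hG => hm V G (hsc V G hI) hG)⟩⟩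

end Pool.Agent.Results.MP_fcb37c_co.StronglyChordal
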